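import Pool.Agent.R283.BM.E

/-!
# MP_58ffb3_an, Q1: (S) does not imply (W)

Disproof, in dimension one: `K` = closed unit disc (so `V_K = log⁺ |z|` and `μ_K` is the normalized
arc length), `ν = ∑ ε_j δ_{exp(ij)}` with `ε_j` decreasing very fast.  The measures
`N_k⁻¹ B_k ν` converge weak-* to `μ_K`, while `(2k)⁻¹ log B_k(0) ≥ 1 > 0 = V_K(0)` for all `k ≥ 1`.
-/

namespace Pool.Agent.Results.MP_58ffb3_an.BergmanMeasureNotLog

open MeasureTheory Metric Set Polynomial Pool.Agent.R283.BM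

theorem result :
    ∃ (K : Set ℂ) (V : ℂ → ℝ) (μ ν : Measure ℂ),
      IsCompact K ∧ Continuous V ∧ (∀ z, siciak K z = ((V z : ℝ) : EReal)) ∧
      IsEquilibrium K μ ∧
      IsFiniteMeasure ν ∧ ν Kᶜ = 0 ∧
      (∀ p : ℂ[X], p ≠ 0 → 0 < ∫ z, ‖p.eval z‖ ^ 2 ∂ν) ∧
      (∀ k : ℕ, ∃ e : Fin (k + 1) → ℂ[X], IsONB ν k e) ∧
      ∀ e : (k : ℕ) → Fin (k + 1) → ℂ[X], (∀ k, IsONB ν k (e k)) →
        PropS ν μ e ∧ ¬ PropW V e :=
  ⟨closedBall 0 1, fun z => Real.posLog ‖z‖, sig, atm eps, isCompact_closedBall _ _,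
    continuous_posLog_norm, siciak_disc, isEquilibrium_sig, isFinite_atm eps_pos summable_eps,
    atm_compl_ball eps, fun _ hp => nrm_pos eps_pos summable_eps hp,
    exists_onb eps_pos summable_eps, fun e he => ⟨propS e he, not_propW e he⟩⟩

end Pool.Agent.Results.MP_58ffb3_an.BergmanMeasureNotLog
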